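import Pool.Agent.Lib.MP_f1849d_co.J.MainE

/-!
MP_f1849d_co: the minimum number of peeling sequences of `n` points in general position in `ℝ^d`
is at least `c (d + 1 + ε)^n`.
-/

open Finset
open scoped Classical

namespace Pool.Agent.Results.MP_f1849d_co.PeelingBase

/-- General position: no affine hyperplane `{x | f x = c}` contains `d + 1` points of `P`. -/
def GeneralPosition (d : ℕ) (P : Finset (EuclideanSpace ℝ (Fin d))) : Prop :=
  ∀ S : Finset (EuclideanSpace ℝ (Fin d)), S ⊆ P → S.card = d + 1 →
    ∀ (f : EuclideanSpace ℝ (Fin d) →ₗ[ℝ] ℝ) (c : ℝ), f ≠ 0 → ∃ x ∈ S, f x ≠ c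

/-- `l = (p_1, ..., p_n)` is a peeling sequence of `P`: it lists every point of `P` exactly once,
and every `p_i` is a vertex (extreme point) of the convex hull of `{p_i, p_{i+1}, ..., p_n}`. -/
def IsPeeling (d : ℕ) (P : Finset (EuclideanSpace ℝ (Fin d)))
    (l : List (EuclideanSpace ℝ (Fin d))) : Prop :=
  l.Nodup ∧ (∀ x, x ∈ l ↔ x ∈ P) ∧
    ∀ (i : ℕ) (h : i < l.length), l[i] ∈ (convexHull ℝ {x | x ∈ l.drop i}).extremePoints ℝ

/-- `g(P)`: the number of peeling sequences of `P`. -/
noncomputable def numPeelings (d : ℕ) (P : Finset (EuclideanSpace ℝ (Fin d))) : ℕ :=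
  Nat.card {l : List (EuclideanSpace ℝ (Fin d)) // IsPeeling d P l}

/-- `g_d(n)`: the minimum of `g(P)` over the `n`-point sets `P ⊆ ℝ^d` in general position. -/
noncomputable def gMin (d n : ℕ) : ℕ :=
  sInf {k | ∃ P : Finset (EuclideanSpace ℝ (Fin d)),
    P.card = n ∧ GeneralPosition d P ∧ numPeelings d P = k}

/-! ### auxiliary facts -/

/-- a point of a finite set is a vertex of the hull iff it is not in the hull of the others -/
theorem mem_extremePoints_hull {d : ℕ} (S : Finset (EuclideanSpace ℝ (Fin d)))
    {x : EuclideanSpace ℝ (Fin d)} (hx : x ∈ S) :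
    x ∈ (convexHull ℝ (S : Set (EuclideanSpace ℝ (Fin d)))).extremePoints ℝ ↔
      x ∉ convexHull ℝ ((S.erase x : Finset (EuclideanSpace ℝ (Fin d))) :
        Set (EuclideanSpace ℝ (Fin d))) := by
  have hconv : Convex ℝ (convexHull ℝ (S : Set (EuclideanSpace ℝ (Fin d)))) :=
    convex_convexHull ℝ _
  have hxS : x ∈ convexHull ℝ (S : Set (EuclideanSpace ℝ (Fin d))) :=
    subset_convexHull ℝ _ (by exact_mod_cast hx)
  rw [hconv.mem_extremePoints_iff_convex_sdiff]
  constructor
  · rintro ⟨-, h⟩ hx'
    have hsub : ((S.erase x : Finset (EuclideanSpace ℝ (Fin d))) :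
        Set (EuclideanSpace ℝ (Fin d))) ⊆
        convexHull ℝ (S : Set (EuclideanSpace ℝ (Fin d))) \ {x} := by
      intro y hy
      rw [Finset.mem_coe, Finset.mem_erase] at hy
      exact ⟨subset_convexHull ℝ _ (by exact_mod_cast hy.2), hy.1⟩
    exact (convexHull_min hsub h hx').2 rfl
  · intro hnot
    refine ⟨hxS, ?_⟩
    rcases (S.erase x).eq_empty_or_nonempty with he | hne
    · have hS : S = {x} := by
        ext y
        rw [Finset.mem_singleton]
        constructor
        · intro hy
          by_contra hyx
          have : y ∈ S.erase x := Finset.mem_erase.mpr ⟨hyx, hy⟩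
          rw [he] at this
          simp at this
        · rintro rfl; exact hx
      rw [hS]
      simp [convex_empty]
    · have hins : (S : Set (EuclideanSpace ℝ (Fin d))) =
          insert x ((S.erase x : Finset (EuclideanSpace ℝ (Fin d))) :
            Set (EuclideanSpace ℝ (Fin d))) := by
        rw [← Finset.coe_insert, Finset.insert_erase hx]
      have hne' : ((S.erase x : Finset (EuclideanSpace ℝ (Fin d))) :
            Set (EuclideanSpace ℝ (Fin d))).Nonempty := by exact_mod_cast hne
      have hrep : ∀ y, y ∈ convexHull ℝ (S : Set (EuclideanSpace ℝ (Fin d))) \ {x} →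
          ∃ (a : ℝ) (y' : EuclideanSpace ℝ (Fin d)), 0 < a ∧ a ≤ 1 ∧
            y' ∈ convexHull ℝ ((S.erase x : Finset (EuclideanSpace ℝ (Fin d))) :
              Set (EuclideanSpace ℝ (Fin d))) ∧ y = (1 - a) • x + a • y' := by
        rintro y ⟨hy, hyx⟩
        rw [hins, convexHull_insert hne', convexJoin_singleton_left] at hy
        simp only [Set.mem_iUnion] at hy
        obtain ⟨y', hy', a, b, ha, hb, hab, rfl⟩ := hy
        refine ⟨b, y', ?_, by linarith, hy', ?_⟩
        · rcases hb.lt_or_eq with h | h
          · exact h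
          · exfalso
            apply hyx
            rw [Set.mem_singleton_iff, ← h, zero_smul, add_zero]
            have : a = 1 := by linarith
            rw [this, one_smul]
        · have : a = 1 - b := by linarith
          rw [this]
      intro y hy z hz s t hs ht hst
      obtain ⟨a, y', ha, ha1, hy', rfl⟩ := hrep y hy
      obtain ⟨b, z', hb, hb1, hz', rfl⟩ := hrep z hz
      refine ⟨hconv hy.1 hz.1 hs ht hst, ?_⟩
      intro hcon
      rw [Set.mem_singleton_iff] at hcon
      have hc : 0 < s * a + t * b := by
        rcases hs.lt_or_eq with h | h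
        · have h1 : 0 < s * a := mul_pos h ha
          have h2 : 0 ≤ t * b := mul_nonneg ht hb.le
          linarith
        · have h1 : t = 1 := by linarith
          rw [← h, h1]; linarith
      apply hnot
      have hmem : (s * a / (s * a + t * b)) • y' + (t * b / (s * a + t * b)) • z' ∈
          convexHull ℝ ((S.erase x : Finset (EuclideanSpace ℝ (Fin d))) :
            Set (EuclideanSpace ℝ (Fin d))) := by
        apply (convex_convexHull ℝ _) hy' hz'
        · exact div_nonneg (mul_nonneg hs ha.le) hc.le
        · exact div_nonneg (mul_nonneg ht hb.le) hc.le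
        · rw [← add_div, div_self hc.ne']
      have hx2 : (s * a / (s * a + t * b)) • y' + (t * b / (s * a + t * b)) • z' = x := by
        have h1 : (s * a + t * b) • ((s * a / (s * a + t * b)) • y' +
            (t * b / (s * a + t * b)) • z') = (s * a + t * b) • x := by
          rw [smul_add, smul_smul, smul_smul, mul_div_cancel₀ _ hc.ne', mul_div_cancel₀ _ hc.ne']
          have h2 : s • ((1 - a) • x + a • y') + t • ((1 - b) • x + b • z') =
              (s + t) • x - (s * a + t * b) • x + ((s * a) • y' + (t * b) • z') := by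
            module
          rw [h2, hst, one_smul] at hcon
          have h3 : (s * a) • y' + (t * b) • z' = (s * a + t * b) • x := by
            have := congrArg (fun v => v - x + (s * a + t * b) • x) hcon
            simp only [sub_self, zero_add] at this
            rw [← this]
            abel
          exact h3
        exact smul_right_injective _ hc.ne' h1
      rw [hx2] at hmem
      exact hmem

open Pool.Agent.Lib.MP_f1849d_co.J in
theorem isPeeling_cons {d : ℕ} {P : Finset (EuclideanSpace ℝ (Fin d))}
    {x : EuclideanSpace ℝ (Fin d)} {l : List (EuclideanSpace ℝ (Fin d))} :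
    IsPeeling d P (x :: l) ↔ x ∈ extV d P ∧ IsPeeling d (P.erase x) l := by
  unfold IsPeeling
  have hset : (∀ y, y ∈ x :: l ↔ y ∈ P) →
      {y | y ∈ (x :: l).drop 0} = (P : Set (EuclideanSpace ℝ (Fin d))) := by
    intro h
    ext y
    rw [List.drop_zero, Set.mem_ofPred_eq, Finset.mem_coe]
    exact h y
  constructor
  · rintro ⟨hnd, hmem, hext⟩
    rw [List.nodup_cons] at hnd
    have hxP : x ∈ P := (hmem x).mp List.mem_cons_self
    refine ⟨?_, hnd.2, ?_, ?_⟩
    · have h0 := hext 0 (by simp)
      rw [hset hmem] at h0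
      simp only [List.getElem_cons_zero] at h0
      rw [mem_extremePoints_hull P hxP] at h0
      unfold extV
      rw [Finset.mem_filter]
      exact ⟨hxP, h0⟩
    · intro y
      rw [Finset.mem_erase, ← hmem y, List.mem_cons]
      constructor
      · intro hy
        exact ⟨fun h => hnd.1 (h ▸ hy), Or.inr hy⟩
      · rintro ⟨h1, h2 | h2⟩
        · exact absurd h2 h1
        · exact h2
    · intro i h
      have := hext (i + 1) (by simpa using h)
      simpa using this
  · rintro ⟨hx, hnd, hmem, hext⟩
    unfold extV at hx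
    rw [Finset.mem_filter] at hx
    have hmem' : ∀ y, y ∈ x :: l ↔ y ∈ P := by
      intro y
      rw [List.mem_cons, hmem y, Finset.mem_erase]
      constructor
      · rintro (rfl | h)
        · exact hx.1
        · exact h.2
      · intro h
        by_cases hyx : y = x
        · exact Or.inl hyx
        · exact Or.inr ⟨hyx, h⟩
    refine ⟨?_, hmem', ?_⟩
    · rw [List.nodup_cons]
      refine ⟨?_, hnd⟩
      rw [hmem x]
      simp
    · intro i h
      cases i with
      | zero =>
        rw [hset hmem']
        simp only [List.getElem_cons_zero]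
        rw [mem_extremePoints_hull P hx.1]
        exact hx.2
      | succ i =>
        have := hext i (by simpa using h)
        simpa using this

theorem isPeeling_nil {d : ℕ} {P : Finset (EuclideanSpace ℝ (Fin d))} :
    IsPeeling d P [] ↔ P = ∅ := by
  unfold IsPeeling
  constructor
  · rintro ⟨-, h, -⟩
    rw [Finset.eq_empty_iff_forall_notMem]
    intro x hx
    have := (h x).mpr hx
    simp at this
  · rintro rfl
    simp

open Pool.Agent.Lib.MP_f1849d_co.J in
/-- splitting off the first point -/
def peelEquiv {d : ℕ} (P : Finset (EuclideanSpace ℝ (Fin d))) (hP : P.Nonempty) :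
    {l : List (EuclideanSpace ℝ (Fin d)) // IsPeeling d P l} ≃
      Σ e : {e // e ∈ extV d P},
        {l : List (EuclideanSpace ℝ (Fin d)) // IsPeeling d (P.erase e.1) l} where
  toFun l := match l with
    | ⟨[], h⟩ => absurd (isPeeling_nil.mp h) hP.ne_empty
    | ⟨x :: l, h⟩ => ⟨⟨x, (isPeeling_cons.mp h).1⟩, ⟨l, (isPeeling_cons.mp h).2⟩⟩
  invFun p := ⟨p.1.1 :: p.2.1, isPeeling_cons.mpr ⟨p.1.2, p.2.2⟩⟩
  left_inv l := by
    match l with
    | ⟨[], h⟩ => exact absurd (isPeeling_nil.mp h) hP.ne_empty
    | ⟨x :: l, h⟩ => rfl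
  right_inv p := rfl

open Pool.Agent.Lib.MP_f1849d_co.J in
theorem numPeelings_eq {d : ℕ} (hd : 2 ≤ d) (P : Finset (EuclideanSpace ℝ (Fin d)))
    (hP : GenPosV d P) :
    Finite {l : List (EuclideanSpace ℝ (Fin d)) // IsPeeling d P l} ∧
      numPeelings d P = g (extV d) P := by
  induction hn : P.card using Nat.strong_induction_on generalizing P with
  | _ n ih =>
    obtain ⟨h0, hrec, -, -, -, -⟩ := count _ (d + 1) P (extV d) (geo d hd P hP)
    rcases P.eq_empty_or_nonempty with rfl | hne
    · have huniq : Unique {l : List (EuclideanSpace ℝ (Fin d)) // IsPeeling d ∅ l} :=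
        { default := ⟨[], isPeeling_nil.mpr rfl⟩
          uniq := by
            rintro ⟨l, hl⟩
            cases l with
            | nil => rfl
            | cons x l =>
              have := (isPeeling_cons.mp hl).1
              unfold extV at this
              simp at this }
      refine ⟨inferInstance, ?_⟩
      unfold numPeelings
      rw [Nat.card_unique, h0]
    · have hstep : ∀ e : {e // e ∈ extV d P},
          Finite {l : List (EuclideanSpace ℝ (Fin d)) // IsPeeling d (P.erase e.1) l} ∧
          numPeelings d (P.erase e.1) = g (extV d) (P.erase e.1) := by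
        intro e
        have he : e.1 ∈ P := by
          have := e.2
          unfold extV at this
          exact (Finset.mem_filter.mp this).1
        apply ih (P.erase e.1).card
        · rw [← hn]
          exact Finset.card_erase_lt_of_mem he
        · intro S hS hc
          exact hP S (hS.trans (Finset.erase_subset _ _)) hc
        · rfl
      haveI hfin : ∀ e : {e // e ∈ extV d P},
          Finite {l : List (EuclideanSpace ℝ (Fin d)) // IsPeeling d (P.erase e.1) l} :=
        fun e => (hstep e).1
      refine ⟨Finite.of_equiv _ (peelEquiv P hne).symm, ?_⟩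
      unfold numPeelings
      rw [Nat.card_congr (peelEquiv P hne), Nat.card_sigma, hrec P (Finset.Subset.refl _) hne,
        ← Finset.sum_coe_sort (extV d P) (fun e => g (extV d) (P.erase e))]
      exact Finset.sum_congr rfl fun e _ => (hstep e).2

open Pool.Agent.Lib.MP_f1849d_co.J in
/-- **Answer to Q1 (affirmative).** For every `d ≥ 2` there are `c > 0` and `ε > 0` such that
`g_d(n) ≥ c (d + 1 + ε)^n` for all `n`. -/
theorem result : ∀ d : ℕ, 2 ≤ d → ∃ c : ℝ, 0 < c ∧ ∃ ε : ℝ, 0 < ε ∧
    ∀ n : ℕ, c * ((d : ℝ) + 1 + ε) ^ n ≤ (gMin d n : ℝ) := by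
  intro d hd
  obtain ⟨c, eta, hc, heta, h⟩ := g_lower (d + 1) (by omega)
  have hexp : 1 < Real.exp eta := Real.one_lt_exp_iff.mpr heta
  refine ⟨c, hc, ((d : ℝ) + 1) * Real.exp eta - ((d : ℝ) + 1), ?_, ?_⟩
  · have : (0 : ℝ) < (d : ℝ) + 1 := by positivity
    nlinarith
  intro n
  have hne : {k | ∃ P : Finset (EuclideanSpace ℝ (Fin d)),
      P.card = n ∧ GeneralPosition d P ∧ numPeelings d P = k}.Nonempty := by
    obtain ⟨P, hPc, hP⟩ := genPos_exists d n (by omega)
    exact ⟨numPeelings d P, P, hPc, (genPosV_iff_hyperplane d P).mp hP, rfl⟩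
  obtain ⟨P, hPc, hP, hPk⟩ := Nat.sInf_mem hne
  have hPV : GenPosV d P := (genPosV_iff_hyperplane d P).mpr hP
  have h1 := h _ P (extV d) (geo d hd P hPV)
  rw [← (numPeelings_eq hd P hPV).2, hPk, hPc] at h1
  have e : (d : ℝ) + 1 + (((d : ℝ) + 1) * Real.exp eta - ((d : ℝ) + 1)) =
      ((d + 1 : ℕ) : ℝ) * Real.exp eta := by push_cast; ring
  rw [e]
  exact h1

end Pool.Agent.Results.MP_f1849d_co.PeelingBase
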